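import Mathlib
import Pool.Agent.X48.ZConf

/-!
The pattern with rows `1010` and `0101` has a superlinear extremal function, but `sm` of order the
square root.
-/

namespace Pool.Agent.Results.MP_f2a48e_co.AlternatingPattern

open Finset Filter Topology

/-- The 0-1 matrix `A` (given by its set of 1-entries) contains the 0-1 matrix `P`. -/
def Contains {p q k l : ℕ} (A : Finset (Fin p × Fin q)) (P : Finset (Fin k × Fin l)) : Prop :=
  ∃ f : Fin k → Fin p, StrictMono f ∧ ∃ g : Fin l → Fin q, StrictMono g ∧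
    ∀ e ∈ P, (f e.1, g e.2) ∈ A

/-- the largest number of 1-entries of an `n × n` matrix avoiding `P` -/
noncomputable def ex {k l : ℕ} (n : ℕ) (P : Finset (Fin k × Fin l)) : ℕ :=
  sSup {c : ℕ | ∃ A : Finset (Fin n × Fin n), ¬ Contains A P ∧ A.card = c}

/-- the largest number of 1-entries of a `P`-avoiding matrix contained in `A` -/
noncomputable def LSM {p q k l : ℕ} (A : Finset (Fin p × Fin q)) (P : Finset (Fin k × Fin l)) : ℕ :=
  sSup {c : ℕ | ∃ B : Finset (Fin p × Fin q), B ⊆ A ∧ ¬ Contains B P ∧ B.card = c}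

/-- the minimum of `LSM A P` over all matrices `A` with exactly `m` 1-entries -/
noncomputable def sm {k l : ℕ} (m : ℕ) (P : Finset (Fin k × Fin l)) : ℕ :=
  sInf {c : ℕ | ∃ (p q : ℕ) (A : Finset (Fin p × Fin q)), A.card = m ∧ LSM A P = c}

/-- the pattern with rows `1010` and `0101` -/
def P0 : Finset (Fin 2 × Fin 4) := {(0, 0), (0, 2), (1, 1), (1, 3)}

theorem contains_iff {p q : ℕ} (A : Finset (Fin p × Fin q)) :
    Contains A P0 ↔ ∃ r1 r2 : Fin p, r1 < r2 ∧ ∃ c1 c2 c3 c4 : Fin q, c1 < c2 ∧ c2 < c3 ∧ c3 < c4 ∧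
      (r1, c1) ∈ A ∧ (r2, c2) ∈ A ∧ (r1, c3) ∈ A ∧ (r2, c4) ∈ A := by
  constructor
  · rintro ⟨f, hf, g, hg, h⟩
    refine ⟨f 0, f 1, hf (by decide), g 0, g 1, g 2, g 3, hg (by decide), hg (by decide),
      hg (by decide), h (0, 0) (by decide), h (1, 1) (by decide), h (0, 2) (by decide),
      h (1, 3) (by decide)⟩
  · rintro ⟨r1, r2, hr, c1, c2, c3, c4, h12, h23, h34, h1, h2, h3, h4⟩
    refine ⟨![r1, r2], ?_, ![c1, c2, c3, c4], ?_, ?_⟩
    · intro a b hab
      fin_cases a <;> fin_cases b <;> simp_all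
    · intro a b hab
      fin_cases a <;> fin_cases b <;> simp_all
      · exact h12.trans h23
      · exact h12.trans (h23.trans h34)
      · exact h23.trans h34
    · intro e he
      simp only [P0, mem_insert, mem_singleton] at he
      rcases he with rfl | rfl | rfl | rfl
      · exact h1
      · exact h3
      · exact h2
      · exact h4

theorem ex_bdd {k l : ℕ} (n : ℕ) (P : Finset (Fin k × Fin l)) :
    BddAbove {c : ℕ | ∃ A : Finset (Fin n × Fin n), ¬ Contains A P ∧ A.card = c} := by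
  refine ⟨Fintype.card (Fin n × Fin n), ?_⟩
  rintro c ⟨A, -, rfl⟩
  exact card_le_univ A

theorem LSM_bdd {p q k l : ℕ} (A : Finset (Fin p × Fin q)) (P : Finset (Fin k × Fin l)) :
    BddAbove {c : ℕ | ∃ B : Finset (Fin p × Fin q), B ⊆ A ∧ ¬ Contains B P ∧ B.card = c} := by
  refine ⟨A.card, ?_⟩
  rintro c ⟨B, hB, -, rfl⟩
  exact card_le_card hB

/-! ### The superlinear lower bound -/

def pos (S : Finset ℕ) (x : ℕ) : ℕ := (S.filter (fun y => y < x)).card

theorem pos_lt {S : Finset ℕ} {x : ℕ} (hx : x ∈ S) : pos S x < S.card := by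
  apply card_lt_card
  rw [ssubset_iff_of_subset (filter_subset _ _)]
  exact ⟨x, hx, by simp⟩

theorem pos_mono {S : Finset ℕ} {x y : ℕ} (hx : x ∈ S) (hxy : x < y) : pos S x < pos S y := by
  apply card_lt_card
  rw [ssubset_iff_of_subset]
  · exact ⟨x, by simp [hx, hxy], by simp⟩
  · intro z hz
    rw [mem_filter] at hz ⊢
    exact ⟨hz.1, lt_trans hz.2 hxy⟩

theorem pos_lt_iff {S : Finset ℕ} {x y : ℕ} (hx : x ∈ S) (hy : y ∈ S) : pos S x < pos S y ↔ x < y := by
  constructor
  · intro h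
    by_contra hcon
    push Not at hcon
    rcases hcon.lt_or_eq with h1 | h1
    · exact absurd h (not_lt.2 (pos_mono hy h1).le)
    · rw [h1] at h; exact lt_irrefl _ h
  · exact pos_mono hx

theorem pos_inj {S : Finset ℕ} {x y : ℕ} (hx : x ∈ S) (hy : y ∈ S) (h : pos S x = pos S y) : x = y := by
  rcases lt_trichotomy x y with h1 | h1 | h1
  · exact absurd h (pos_mono hx h1).ne
  · exact h1
  · exact absurd h (pos_mono hy h1).ne'

/-- compressing a set of positions to a square matrix -/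
theorem compress (G : Finset (ℕ × ℕ)) (N : ℕ) (hR : (G.image Prod.fst).card ≤ N)
    (hC : (G.image Prod.snd).card ≤ N)
    (hG : ∀ r1 r2 c1 c2 c3 c4, r1 < r2 → c1 < c2 → c2 < c3 → c3 < c4 → (r1, c1) ∈ G →
      (r2, c2) ∈ G → (r1, c3) ∈ G → (r2, c4) ∈ G → False) : G.card ≤ ex N P0 := by
  classical
  set R := G.image Prod.fst with hRd
  set C := G.image Prod.snd with hCd
  have hr : ∀ e ∈ G, e.1 ∈ R := fun e he => mem_image_of_mem _ he
  have hc : ∀ e ∈ G, e.2 ∈ C := fun e he => mem_image_of_mem _ he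
  let A : Finset (Fin N × Fin N) := univ.filter (fun p => ∃ e ∈ G, pos R e.1 = p.1.val ∧ pos C e.2 = p.2.val)
  have hA : ¬ Contains A P0 := by
    rw [contains_iff]
    rintro ⟨r1, r2, hr12, c1, c2, c3, c4, h12, h23, h34, h1, h2, h3, h4⟩
    obtain ⟨e1, he1, a1, b1⟩ := (mem_filter.1 h1).2
    obtain ⟨e2, he2, a2, b2⟩ := (mem_filter.1 h2).2
    obtain ⟨e3, he3, a3, b3⟩ := (mem_filter.1 h3).2
    obtain ⟨e4, he4, a4, b4⟩ := (mem_filter.1 h4).2
    have q13 : e1.1 = e3.1 := pos_inj (hr _ he1) (hr _ he3) (by rw [a1, a3])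
    have q24 : e2.1 = e4.1 := pos_inj (hr _ he2) (hr _ he4) (by rw [a2, a4])
    have hlt : e1.1 < e2.1 := (pos_lt_iff (hr _ he1) (hr _ he2)).1 (by rw [a1, a2]; exact hr12)
    have g12 : e1.2 < e2.2 := (pos_lt_iff (hc _ he1) (hc _ he2)).1 (by rw [b1, b2]; exact h12)
    have g23 : e2.2 < e3.2 := (pos_lt_iff (hc _ he2) (hc _ he3)).1 (by rw [b2, b3]; exact h23)
    have g34 : e3.2 < e4.2 := (pos_lt_iff (hc _ he3) (hc _ he4)).1 (by rw [b3, b4]; exact h34)
    apply hG e1.1 e2.1 e1.2 e2.2 e3.2 e4.2 hlt g12 g23 g34 he1 he2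
    · rw [q13]; exact he3
    · rw [q24]; exact he4
  have hcard : G.card ≤ A.card := by
    rw [← card_attach]
    apply card_le_card_of_injOn (fun e : {e // e ∈ G} =>
      ((⟨pos R e.1.1, lt_of_lt_of_le (pos_lt (hr _ e.2)) hR⟩,
        ⟨pos C e.1.2, lt_of_lt_of_le (pos_lt (hc _ e.2)) hC⟩) : Fin N × Fin N))
    · intro e _
      exact mem_coe.2 (mem_filter.2 ⟨mem_univ _, e.1, e.2, rfl, rfl⟩)
    · intro e _ e' _ h
      have h1 := congrArg (fun z => z.1.val) h
      have h2 := congrArg (fun z => z.2.val) h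
      exact Subtype.ext (Prod.ext (pos_inj (hr _ e.2) (hr _ e'.2) h1) (pos_inj (hc _ e.2) (hc _ e'.2) h2))
  exact le_trans hcard (le_csSup (ex_bdd N P0) ⟨A, hA, rfl⟩)

open Pool.Agent.X48.ZConf in
/-- `T` diagonal copies of a configuration with two rows per special column -/
theorem ex_ge_conf {d : ℕ} (Z : Conf d 2 1) (T : ℕ) : T * (2 * Z.s) * d ≤ ex (T * (2 * Z.s)) P0 := by
  classical
  -- index set
  let I : Finset (ℕ × ℕ × ℕ) := range T ×ˢ (range Z.s ×ˢ range 2)
  let G : Finset (ℕ × ℕ) := I.biUnion (fun x =>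
    (Z.inc x.2.1 x.2.2).image (fun c => (x.1 * Z.B + Z.rk x.2.1 x.2.2, x.1 * Z.M + c)))
  have hmemI : ∀ x ∈ I, x.1 < T ∧ x.2.1 < Z.s ∧ x.2.2 < 2 := by
    intro x hx
    simp only [I, mem_product, mem_range] at hx
    exact hx
  have hG : ∀ r c, (r, c) ∈ G ↔ ∃ x ∈ I, ∃ c' ∈ Z.inc x.2.1 x.2.2,
      x.1 * Z.B + Z.rk x.2.1 x.2.2 = r ∧ x.1 * Z.M + c' = c := by
    intro r c
    simp only [G, mem_biUnion, mem_image, Prod.mk.injEq]
  have hcM : ∀ x ∈ I, ∀ c ∈ Z.inc x.2.1 x.2.2, c < Z.M := by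
    intro x hx c hc
    obtain ⟨-, h2, h3⟩ := hmemI x hx
    exact Z.cols_lt _ (Z.inc_cols _ _ h2 h3 hc)
  have blk : ∀ t t' B r r' : ℕ, r < B → r' < B → t * B + r < t' * B + r' → t ≤ t' := by
    intro t t' B r r' hr hr' h
    by_contra hcon
    push Not at hcon
    have h1 : (t' + 1) * B ≤ t * B := Nat.mul_le_mul_right _ hcon
    have h2 : (t' + 1) * B = t' * B + B := by ring
    omega
  have blk2 : ∀ t t' B r r' : ℕ, r < B → r' < B → t * B + r = t' * B + r' → t = t' ∧ r = r' := by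
    intro t t' B r r' hr hr' h
    have h3 : t = t' := by
      rcases lt_trichotomy t t' with h0 | h0 | h0
      · exfalso
        have h1 : (t + 1) * B ≤ t' * B := Nat.mul_le_mul_right _ h0
        have h2 : (t + 1) * B = t * B + B := by ring
        omega
      · exact h0
      · exfalso
        have h1 : (t' + 1) * B ≤ t * B := Nat.mul_le_mul_right _ h0
        have h2 : (t' + 1) * B = t' * B + B := by ring
        omega
    subst h3
    exact ⟨rfl, by omega⟩
  -- the same row means the same index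
  have same : ∀ x ∈ I, ∀ y ∈ I, x.1 * Z.B + Z.rk x.2.1 x.2.2 = y.1 * Z.B + Z.rk y.2.1 y.2.2 → x = y := by
    intro x hx y hy h
    obtain ⟨-, h2, h3⟩ := hmemI x hx
    obtain ⟨-, h5, h6⟩ := hmemI y hy
    obtain ⟨h7, h8⟩ := blk2 _ _ _ _ _ (Z.rk_lt _ _ h2 h3) (Z.rk_lt _ _ h5 h6) h
    obtain ⟨h9, h10⟩ := Z.rk_inj _ _ _ _ h2 h3 h5 h6 h8
    exact Prod.ext h7 (Prod.ext h9 h10)
  have hcardI : I.card = T * (2 * Z.s) := by
    simp only [I, card_product, card_range]; ring
  have hGcard : T * (2 * Z.s) * d ≤ G.card := by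
    have h1 : G.card = ∑ x ∈ I, (Z.inc x.2.1 x.2.2).card := by
      rw [card_biUnion]
      · apply sum_congr rfl
        intro x _
        rw [card_image_of_injective]
        intro a b hab
        have := (Prod.mk.inj hab).2
        omega
      · intro x hx y hy hxy
        rw [Function.onFun, disjoint_left]
        intro e he he'
        rw [mem_image] at he he'
        obtain ⟨c, _, rfl⟩ := he
        obtain ⟨c', _, h'⟩ := he'
        exact hxy (same x hx y hy (Prod.mk.inj h').1.symm)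
    rw [h1, ← hcardI, ← smul_eq_mul, ← sum_const]
    apply sum_le_sum
    intro x hx
    obtain ⟨-, h2, h3⟩ := hmemI x hx
    exact Z.card_inc _ _ h2 h3
  refine le_trans hGcard (compress G _ ?_ ?_ ?_)
  · -- rows
    rw [← hcardI]
    have : G.image Prod.fst ⊆ I.image (fun x => x.1 * Z.B + Z.rk x.2.1 x.2.2) := by
      intro r hr
      rw [mem_image] at hr
      obtain ⟨⟨r', c⟩, he, rfl⟩ := hr
      obtain ⟨x, hx, c', _, h1, _⟩ := (hG _ _).1 he
      rw [mem_image]
      exact ⟨x, hx, h1⟩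
    exact le_trans (card_le_card this) card_image_le
  · -- columns
    have : G.image Prod.snd ⊆ ((range T) ×ˢ Z.cols).image (fun p => p.1 * Z.M + p.2) := by
      intro c hc
      rw [mem_image] at hc
      obtain ⟨⟨r', c⟩, he, rfl⟩ := hc
      obtain ⟨x, hx, c', hc', _, h2⟩ := (hG _ _).1 he
      obtain ⟨h3, h4, h5⟩ := hmemI x hx
      rw [mem_image]
      exact ⟨(x.1, c'), mem_product.2 ⟨mem_range.2 h3, Z.inc_cols _ _ h4 h5 hc'⟩, h2⟩
    refine le_trans (card_le_card this) (le_trans card_image_le ?_)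
    rw [card_product, card_range]
    have := Z.count
    exact Nat.mul_le_mul_left _ (by omega)
  · intro r1 r2 c1 c2 c3 c4 hr h12 h23 h34 h1 h2 h3 h4
    obtain ⟨x1, hx1, a1, ha1, e1, f1⟩ := (hG _ _).1 h1
    obtain ⟨x2, hx2, a2, ha2, e2, f2⟩ := (hG _ _).1 h2
    obtain ⟨x3, hx3, a3, ha3, e3, f3⟩ := (hG _ _).1 h3
    obtain ⟨x4, hx4, a4, ha4, e4, f4⟩ := (hG _ _).1 h4
    have s13 : x1 = x3 := same _ hx1 _ hx3 (by rw [e1, e3])
    have s24 : x2 = x4 := same _ hx2 _ hx4 (by rw [e2, e4])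
    subst s13
    subst s24
    have m1 := hcM _ hx1 _ ha1
    have m2 := hcM _ hx2 _ ha2
    have m3 := hcM _ hx1 _ ha3
    have m4 := hcM _ hx2 _ ha4
    have t12 : x1.1 ≤ x2.1 := blk _ _ Z.M _ _ m1 m2 (by omega)
    have t23 : x2.1 ≤ x1.1 := blk _ _ Z.M _ _ m2 m3 (by omega)
    have ht : x1.1 = x2.1 := le_antisymm t12 t23
    obtain ⟨-, i1, i2⟩ := hmemI x1 hx1
    obtain ⟨-, j1, j2⟩ := hmemI x2 hx2
    rw [← ht] at e2 f2 f4
    exact Z.avoid _ _ _ _ i1 i2 j1 j2 (by omega) a1 a2 a3 a4 (by omega) (by omega) (by omega)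
      ha1 ha2 ha3 ha4

theorem ex_mono {a b : ℕ} (hab : a ≤ b) : ex a P0 ≤ ex b P0 := by
  classical
  have hne : {c : ℕ | ∃ A : Finset (Fin a × Fin a), ¬ Contains A P0 ∧ A.card = c}.Nonempty := by
    refine ⟨0, ∅, ?_, rfl⟩
    rintro ⟨f, _, g, _, h⟩
    exact absurd (h (0, 0) (by decide)) (notMem_empty _)
  obtain ⟨A, hA, hc⟩ := Nat.sSup_mem hne (ex_bdd a P0)
  unfold ex
  rw [← hc]
  let φ : Fin a × Fin a ↪ Fin b × Fin b :=
    ⟨fun p => (Fin.castLE hab p.1, Fin.castLE hab p.2), by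
      intro p q h
      exact Prod.ext (Fin.castLE_injective hab (Prod.mk.inj h).1) (Fin.castLE_injective hab (Prod.mk.inj h).2)⟩
  apply le_csSup (ex_bdd b P0)
  refine ⟨A.map φ, ?_, card_map _⟩
  rw [contains_iff] at hA ⊢
  rintro ⟨r1, r2, hr, c1, c2, c3, c4, h12, h23, h34, h1, h2, h3, h4⟩
  rw [Finset.mem_map] at h1 h2 h3 h4
  obtain ⟨e1, k1, q1⟩ := h1
  obtain ⟨e2, k2, q2⟩ := h2
  obtain ⟨e3, k3, q3⟩ := h3
  obtain ⟨e4, k4, q4⟩ := h4
  have hφ : ∀ (e : Fin a × Fin a) (r c : Fin b), φ e = (r, c) → e.1.val = r.val ∧ e.2.val = c.val :=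
    fun e r c h => ⟨congrArg (fun z : Fin b × Fin b => z.1.val) h,
      congrArg (fun z : Fin b × Fin b => z.2.val) h⟩
  have g1 := hφ _ _ _ q1
  have g2 := hφ _ _ _ q2
  have g3 := hφ _ _ _ q3
  have g4 := hφ _ _ _ q4
  have w13 : e3.1 = e1.1 := Fin.ext (by rw [g3.1, g1.1])
  have w24 : e4.1 = e2.1 := Fin.ext (by rw [g4.1, g2.1])
  apply hA
  refine ⟨e1.1, e2.1, ?_, e1.2, e2.2, e3.2, e4.2, ?_, ?_, ?_, k1, k2, ?_, ?_⟩
  · rw [Fin.lt_def, g1.1, g2.1]; exact hr
  · rw [Fin.lt_def, g1.2, g2.2]; exact h12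
  · rw [Fin.lt_def, g2.2, g3.2]; exact h23
  · rw [Fin.lt_def, g3.2, g4.2]; exact h34
  · rw [← w13]; exact k3
  · rw [← w24]; exact k4

theorem ex_superlinear (C : ℕ) : ∃ N, ∀ n, N ≤ n → C * n ≤ ex n P0 := by
  obtain ⟨Z⟩ := Pool.Agent.X48.ZConf.exists_conf (2 * C) 2 1
  have hs := Z.s_pos
  refine ⟨2 * Z.s, fun n hn => ?_⟩
  set w := 2 * Z.s with hw
  have hw0 : 0 < w := by omega
  have h1 := ex_ge_conf Z (n / w)
  have h2 : n / w * w ≤ n := Nat.div_mul_le_self n w
  have h3 : n < n / w * w + w := by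
    have := Nat.lt_div_mul_add hw0 (a := n)
    exact this
  have h4 : w ≤ n / w * w := by
    have : 1 ≤ n / w := (Nat.one_le_div_iff hw0).2 hn
    calc w = 1 * w := (Nat.one_mul w).symm
      _ ≤ _ := Nat.mul_le_mul_right _ this
  calc C * n ≤ C * (2 * (n / w * w)) := Nat.mul_le_mul_left _ (by omega)
    _ ≤ n / w * w * (2 * C + 1) := by
        have : n / w * w * (2 * C + 1) = C * (2 * (n / w * w)) + n / w * w := by ring
        omega
    _ ≤ ex (n / w * w) P0 := h1
    _ ≤ ex n P0 := ex_mono h2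

/-! ### The upper bound for `sm` -/

/-- `N` anti-identity matrices side by side -/
def host (N : ℕ) : Finset (Fin N × Fin (N * N)) :=
  univ.filter (fun p => p.2.val % N + p.1.val + 1 = N)

theorem host_col {N : ℕ} {p : Fin N × Fin (N * N)} (hp : p ∈ host N) :
    p.2.val = N * (p.2.val / N) + (N - 1 - p.1.val) ∧ p.2.val / N < N := by
  have h1 := (mem_filter.1 hp).2
  have h2 := Nat.div_add_mod p.2.val N
  refine ⟨by omega, Nat.div_lt_of_lt_mul p.2.2⟩

theorem host_card (N : ℕ) : (host N).card = N * N := by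
  classical
  have h : (host N).card = (univ : Finset (Fin N × Fin N)).card := by
    refine card_bij' (fun p hp => (p.1, (⟨p.2.val / N, (host_col hp).2⟩ : Fin N)))
      (fun q _ => (q.1, (⟨N * q.2.val + (N - 1 - q.1.val), by
        have h1 := q.2.2
        have h2 := q.1.2
        have h3 : N * (q.2.val + 1) ≤ N * N := Nat.mul_le_mul_left _ h1
        have h4 : N * (q.2.val + 1) = N * q.2.val + N := by ring
        omega⟩ : Fin (N * N)))) ?_ ?_ ?_ ?_
    · intro p _; exact mem_univ _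
    · intro q _
      have h2 := q.1.2
      simp only [host, mem_filter, mem_univ, true_and]
      rw [Nat.mul_add_mod, Nat.mod_eq_of_lt (by omega)]
      omega
    · intro p hp
      have h1 := (host_col hp).1
      apply Prod.ext
      · rfl
      · apply Fin.ext
        simp only
        omega
    · intro q _
      have h2 := q.1.2
      apply Prod.ext
      · rfl
      · apply Fin.ext
        simp only
        rw [Nat.mul_add_div (by omega), Nat.div_eq_of_lt (by omega)]
        rfl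
  rw [h, card_univ, Fintype.card_prod, Fintype.card_fin]

theorem host_avoid {N : ℕ} (B : Finset (Fin N × Fin (N * N))) (hB : B ⊆ host N)
    (hP : ¬ Contains B P0) : B.card ≤ 3 * N := by
  classical
  rw [contains_iff] at hP
  -- blocks of a row
  let T : Fin N → Finset ℕ := fun i => (B.filter (fun p => p.1 = i)).image (fun p => p.2.val / N)
  have hT : ∀ i t, t ∈ T i → ∃ c : Fin (N * N), (i, c) ∈ B ∧ c.val = N * t + (N - 1 - i.val) := by
    intro i t ht
    simp only [T, mem_image, mem_filter] at ht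
    obtain ⟨⟨i', c⟩, ⟨h1, h2⟩, h3⟩ := ht
    simp only at h2 h3
    subst h2
    refine ⟨c, h1, ?_⟩
    have := (host_col (hB h1)).1
    simp only at this
    rw [h3] at this
    exact this
  have hTN : ∀ i t, t ∈ T i → t < N := by
    intro i t ht
    simp only [T, mem_image, mem_filter] at ht
    obtain ⟨p, ⟨h1, h2⟩, h3⟩ := ht
    rw [← h3]
    exact (host_col (hB h1)).2
  have hcard : B.card = ∑ i : Fin N, (T i).card := by
    rw [card_eq_sum_card_fiberwise (f := fun p : Fin N × Fin (N * N) => p.1) (t := univ)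
      (fun _ _ => mem_coe.2 (mem_univ _))]
    apply sum_congr rfl
    intro i _
    simp only [T]
    rw [card_image_of_injOn]
    intro p hp q hq h
    have hp' := mem_filter.1 (mem_coe.1 hp)
    have hq' := mem_filter.1 (mem_coe.1 hq)
    have e1 := (host_col (hB hp'.1)).1
    have e2 := (host_col (hB hq'.1)).1
    simp only at h
    rw [h, hp'.2] at e1
    rw [hq'.2] at e2
    exact Prod.ext (by rw [hp'.2, hq'.2]) (Fin.ext (e1.trans e2.symm))
  -- middle blocks
  let Mid : Fin N → Finset ℕ := fun i => (T i).filter (fun t => (∃ t1 ∈ T i, t1 < t) ∧ ∃ t2 ∈ T i, t < t2)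
  have hmid : ∀ i, (T i).card ≤ (Mid i).card + 2 := by
    intro i
    by_cases hne : (T i).Nonempty
    · have : T i ⊆ insert ((T i).min' hne) (insert ((T i).max' hne) (Mid i)) := by
        intro t ht
        rw [mem_insert, mem_insert]
        by_cases h1 : t = (T i).min' hne
        · exact Or.inl h1
        by_cases h2 : t = (T i).max' hne
        · exact Or.inr (Or.inl h2)
        right; right
        refine mem_filter.2 ⟨ht, ⟨_, (T i).min'_mem hne, ?_⟩, ⟨_, (T i).max'_mem hne, ?_⟩⟩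
        · exact lt_of_le_of_ne ((T i).min'_le t ht) (Ne.symm h1)
        · exact lt_of_le_of_ne ((T i).le_max' t ht) h2
      refine le_trans (card_le_card this) (le_trans (card_insert_le _ _) ?_)
      have := card_insert_le ((T i).max' hne) (Mid i)
      omega
    · rw [not_nonempty_iff_eq_empty] at hne
      rw [hne]; simp
  have hsum : ∑ i : Fin N, (Mid i).card ≤ N := by
    have h1 : ∑ i : Fin N, (Mid i).card = ∑ t ∈ range N, (univ.filter (fun i : Fin N => t ∈ Mid i)).card := by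
      have h2 : ∀ i : Fin N, (Mid i).card = ∑ t ∈ range N, if t ∈ Mid i then 1 else 0 := by
        intro i
        rw [← card_filter]
        congr 1
        ext t
        constructor
        · intro h; exact mem_filter.2 ⟨mem_range.2 (hTN i t (mem_filter.1 h).1), h⟩
        · intro h; exact (mem_filter.1 h).2
      rw [sum_congr rfl (fun i _ => h2 i), sum_comm]
      apply sum_congr rfl
      intro t _
      rw [card_filter]
    rw [h1]
    calc ∑ t ∈ range N, (univ.filter (fun i : Fin N => t ∈ Mid i)).card ≤ ∑ t ∈ range N, 1 := by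
          apply sum_le_sum
          intro t _
          rw [card_le_one]
          -- two rows with the same middle block give the pattern
          have key : ∀ i i' : Fin N, i < i' → t ∈ Mid i → t ∈ Mid i' → False := by
            intro i i' hii h h'
            obtain ⟨ht, ⟨t1, ht1, hlt1⟩, -⟩ := mem_filter.1 h
            obtain ⟨ht', -, ⟨t4, ht4, hlt4⟩⟩ := mem_filter.1 h'
            obtain ⟨c1, m1, e1⟩ := hT i t1 ht1
            obtain ⟨c2, m2, e2⟩ := hT i' t ht'
            obtain ⟨c3, m3, e3⟩ := hT i t ht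
            obtain ⟨c4, m4, e4⟩ := hT i' t4 ht4
            have w1 := i.2
            have w2 := i'.2
            have w3 : i.val < i'.val := hii
            have l1 : N * (t1 + 1) ≤ N * t := Nat.mul_le_mul_left _ hlt1
            have l2 : N * (t1 + 1) = N * t1 + N := by ring
            have l3 : N * (t + 1) ≤ N * t4 := Nat.mul_le_mul_left _ hlt4
            have l4 : N * (t + 1) = N * t + N := by ring
            apply hP
            refine ⟨i, i', hii, c1, c2, c3, c4, ?_, ?_, ?_, m1, m2, m3, m4⟩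
            · rw [Fin.lt_def]; omega
            · rw [Fin.lt_def]; omega
            · rw [Fin.lt_def]; omega
          intro i hi i' hi'
          have h := (mem_filter.1 hi).2
          have h' := (mem_filter.1 hi').2
          rcases lt_trichotomy i i' with h3 | h3 | h3
          · exact (key i i' h3 h h').elim
          · exact h3
          · exact (key i' i h3 h' h).elim
      _ = N := by simp
  rw [hcard]
  calc ∑ i : Fin N, (T i).card ≤ ∑ i : Fin N, ((Mid i).card + 2) := sum_le_sum (fun i _ => hmid i)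
    _ = ∑ i : Fin N, (Mid i).card + 2 * N := by
        rw [sum_add_distrib]; simp; ring
    _ ≤ 3 * N := by omega

theorem sm_le (m N : ℕ) (h : m ≤ N * N) : sm m P0 ≤ 3 * N := by
  classical
  rw [← host_card] at h
  obtain ⟨A, hA, hAc⟩ := exists_subset_card_eq h
  have h1 : LSM A P0 ≤ 3 * N := by
    apply csSup_le
    · refine ⟨0, ∅, empty_subset _, ?_, rfl⟩
      rintro ⟨f, _, g, _, h⟩
      exact absurd (h (0, 0) (by decide)) (notMem_empty _)
    · rintro c ⟨B, hB, hP, rfl⟩
      exact host_avoid B (hB.trans hA) hP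
  exact le_trans (Nat.sInf_le ⟨N, N * N, A, hAc, rfl⟩) h1

/-! ### The lower bound for `sm` -/

theorem LSM_sq {p q : ℕ} (A : Finset (Fin p × Fin q)) : A.card ≤ LSM A P0 * LSM A P0 := by
  classical
  set L := LSM A P0 with hL
  have hle : ∀ B : Finset (Fin p × Fin q), B ⊆ A → ¬ Contains B P0 → B.card ≤ L := by
    intro B hB hP
    exact le_csSup (LSM_bdd A P0) ⟨B, hB, hP, rfl⟩
  -- rows
  have hrow : ∀ i : Fin p, (A.filter (fun e => e.1 = i)).card ≤ L := by
    intro i
    apply hle _ (filter_subset _ _)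
    rw [contains_iff]
    rintro ⟨r1, r2, hr, c1, c2, c3, c4, _, _, _, h1, h2, _, _⟩
    have e1 : r1 = i := (mem_filter.1 h1).2
    have e2 : r2 = i := (mem_filter.1 h2).2
    rw [e1, e2] at hr
    exact lt_irrefl _ hr
  let R := A.image Prod.fst
  have hR : R.card ≤ L := by
    -- choose one entry in each nonempty row
    have hch : ∀ i ∈ R, ∃ c, (i, c) ∈ A := by
      intro i hi
      obtain ⟨⟨i', c⟩, h1, rfl⟩ := mem_image.1 hi
      exact ⟨c, h1⟩
    let B := A.filter (fun e => ∀ e' ∈ A, e'.1 = e.1 → e.2 ≤ e'.2)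
    have hB : ¬ Contains B P0 := by
      rw [contains_iff]
      rintro ⟨r1, r2, hr, c1, c2, c3, c4, h12, h23, _, h1, _, h3, _⟩
      have g3 := (mem_filter.1 h3).2 (r1, c1) (mem_filter.1 h1).1 rfl
      simp only at g3
      exact absurd (h12.trans h23) (not_lt.2 g3)
    have h2 : R.card ≤ B.card := by
      have : R ⊆ B.image Prod.fst := by
        intro i hi
        let S := (A.filter (fun e => e.1 = i)).image Prod.snd
        have hS : S.Nonempty := by
          obtain ⟨c, hc⟩ := hch i hi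
          exact ⟨c, mem_image.2 ⟨(i, c), mem_filter.2 ⟨hc, rfl⟩, rfl⟩⟩
        obtain ⟨⟨i', c⟩, h4, h5⟩ := mem_image.1 (S.min'_mem hS)
        obtain ⟨h6, h7⟩ := mem_filter.1 h4
        simp only at h5 h7
        subst h7
        rw [mem_image]
        refine ⟨(i', c), mem_filter.2 ⟨h6, ?_⟩, rfl⟩
        intro e' he' h8
        simp only at h8 ⊢
        rw [h5]
        apply S.min'_le
        exact mem_image.2 ⟨e', mem_filter.2 ⟨he', h8⟩, rfl⟩
      exact le_trans (card_le_card this) card_image_le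
    exact le_trans h2 (hle B (filter_subset _ _) hB)
  calc A.card = ∑ i ∈ R, (A.filter (fun e => e.1 = i)).card :=
        card_eq_sum_card_fiberwise (fun e he => mem_coe.2 (mem_image_of_mem _ (mem_coe.1 he)))
    _ ≤ ∑ _i ∈ R, L := sum_le_sum (fun i _ => hrow i)
    _ = R.card * L := by rw [sum_const, smul_eq_mul]
    _ ≤ L * L := Nat.mul_le_mul_right _ hR

theorem sm_sq (m : ℕ) : m ≤ sm m P0 * sm m P0 := by
  have hne : {c : ℕ | ∃ (p q : ℕ) (A : Finset (Fin p × Fin q)), A.card = m ∧ LSM A P0 = c}.Nonempty := by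
    have h : m ≤ (host m).card := by rw [host_card]; exact Nat.le_mul_self m
    obtain ⟨A, hA, hAc⟩ := exists_subset_card_eq h
    exact ⟨_, m, m * m, A, hAc, rfl⟩
  obtain ⟨p, q, A, hA, hc⟩ := Nat.sInf_mem hne
  unfold sm
  rw [← hc, ← hA]
  exact LSM_sq A

theorem result : ∃ (k l : ℕ) (P : Finset (Fin k × Fin l)),
    Tendsto (fun n : ℕ => (ex n P : ℝ) / n) atTop atTop ∧
    ∃ c₁ c₂ : ℝ, 0 < c₁ ∧ 0 < c₂ ∧ ∃ N : ℕ, ∀ m : ℕ, N ≤ m →
      c₁ * √(m : ℝ) ≤ (sm m P : ℝ) ∧ (sm m P : ℝ) ≤ c₂ * √(m : ℝ) := by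
  refine ⟨2, 4, P0, ?_, 1, 6, by norm_num, by norm_num, 1, ?_⟩
  · rw [tendsto_atTop]
    intro b
    obtain ⟨C, hC⟩ := exists_nat_ge b
    obtain ⟨N, hN⟩ := ex_superlinear C
    filter_upwards [eventually_ge_atTop N, eventually_gt_atTop 0] with n hn hn0
    have h1 := hN n hn
    have hn' : (0 : ℝ) < n := by exact_mod_cast hn0
    rw [le_div_iff₀ hn']
    have h2 : (C : ℝ) * n ≤ ex n P0 := by exact_mod_cast h1
    nlinarith
  · intro m hm
    have hm0 : (1 : ℝ) ≤ m := by exact_mod_cast hm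
    constructor
    · rw [one_mul]
      apply Real.sqrt_le_iff.2
      refine ⟨Nat.cast_nonneg _, ?_⟩
      have := sm_sq m
      rw [sq]
      exact_mod_cast this
    · -- N = ceil sqrt m
      obtain ⟨N, hN⟩ : ∃ N : ℕ, N = ⌈√(m : ℝ)⌉₊ := ⟨_, rfl⟩
      have h1 : √(m : ℝ) ≤ N := by rw [hN]; exact Nat.le_ceil _
      have h2 : (N : ℝ) < √(m : ℝ) + 1 := by rw [hN]; exact Nat.ceil_lt_add_one (Real.sqrt_nonneg _)
      have h3 : 1 ≤ √(m : ℝ) := Real.one_le_sqrt.2 hm0
      have h4 : m ≤ N * N := by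
        have h5 : (m : ℝ) ≤ (N : ℝ) * N := by
          have h6 : √(m : ℝ) * √(m : ℝ) = m := Real.mul_self_sqrt (by linarith)
          rw [← h6]
          exact mul_le_mul h1 h1 (Real.sqrt_nonneg _) (by positivity)
        exact_mod_cast h5
      have h5 := sm_le m N h4
      have h6 : (sm m P0 : ℝ) ≤ 3 * N := by exact_mod_cast h5
      linarith

end Pool.Agent.Results.MP_f2a48e_co.AlternatingPattern
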